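import Mathlib
import Pool.Agent.Y6.F.Stm
import Pool.Agent.Y708.EM.KERM

/-! The kernel of the helical modes (finite order). Port of `Pool.Agent.Y708.EM.KERM`. -/

open Set Filter Topology
open scoped ComplexConjugate

set_option autoImplicit false

namespace Pool.Agent.Y983.EF.KERM

open Pool.Agent.Y6.M (Ker Z3 C3 Md br Frame cK nsq dt cj kc)
open Pool.Agent.Y6.F (al al_pos lvM σM αM NM cd S_LV S_CODE S_SUMS)
open Pool.Agent.Y708.EM.KERM (real' anti' bdd' two cK_ne nsq_add)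

lemma al_ge (n : ℕ) : 10 ≤ al n ∧ n + 1 ≤ al n := by
  induction n with
  | zero =>
    constructor
    · show 10 ≤ 10 ^ 100
      exact Nat.le_self_pow (by norm_num) 10
    · exact al_pos 0
  | succ n ih =>
    obtain ⟨h1, h2⟩ := ih
    have h3 : al (n + 1) = al n ^ (2 * n + 60) := rfl
    have h4 : al n ^ 2 ≤ al n ^ (2 * n + 60) := Nat.pow_le_pow_right (al_pos n) (by omega)
    have h5 : al n * 2 ≤ al n ^ 2 := by
      rw [pow_two]
      exact Nat.mul_le_mul_left _ (le_trans (by norm_num) h1)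
    rw [h3]
    constructor <;> omega

lemma sep' (hLV : S_LV) (hC : S_CODE) (hS : S_SUMS) (i a b : Md) (hi : σM i = 0)
    (hk : a.1.1 + b.1.1 = i.1.1) (hab : σM a ≠ 0 ∨ σM b ≠ 0) :
    ∃ j, (j = a ∨ j = b) ∧ σM j ≠ 0 ∧ lvM i ≤ lvM j + 1 := by
  obtain ⟨-, -, -, L4, -, -, L7, -, -, -, -⟩ := hLV
  obtain ⟨-, -, -, C4, -, -⟩ := hC
  obtain ⟨⟨-, -, S4⟩, -⟩ := hS
  by_cases ha : σM a = 0
  · have hb : σM b ≠ 0 := by
      rcases hab with h | h
      · exact absurd ha h
      · exact h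
    have h1 : i.1.1 - a.1.1 = b.1.1 := by rw [← hk, add_sub_cancel_left]
    have h2 : i.1.1 ≠ a.1.1 := by
      intro h
      rw [h, sub_self] at h1
      exact b.1.2 h1.symm
    have h3 := S4 i a hi ha h2
    rw [h1] at h3
    have h4 := C4 b
    rw [← (L4 b hb).1] at h4
    exact ⟨b, Or.inr rfl, hb, by omega⟩
  · by_cases hb : σM b = 0
    · have h1 : i.1.1 - b.1.1 = a.1.1 := by rw [← hk, add_sub_cancel_right]
      have h2 : i.1.1 ≠ b.1.1 := by
        intro h
        rw [h, sub_self] at h1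
        exact a.1.2 h1.symm
      have h3 := S4 i b hi hb h2
      rw [h1] at h3
      have h4 := C4 a
      rw [← (L4 a ha).1] at h4
      exact ⟨a, Or.inl rfl, ha, by omega⟩
    · have h1 := nsq_add a.1.1 b.1.1
      rw [hk] at h1
      have ga := C4 a
      have gb := C4 b
      rw [← (L4 a ha).1] at ga
      rw [← (L4 b hb).1] at gb
      have h2 := (L7 i hi).1
      unfold NM αM at h2
      have h3 : ((al (lvM i) : ℤ)) ^ 2 ≤ nsq i.1.1 := by exact_mod_cast h2
      have h4 := al_ge (lvM i)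
      have h5 : (10 : ℤ) * (lvM i + 1) ≤ (al (lvM i) : ℤ) ^ 2 := by
        have h6 : (10 : ℤ) ≤ (al (lvM i) : ℤ) := by exact_mod_cast h4.1
        have h7 : ((lvM i : ℤ) + 1) ≤ (al (lvM i) : ℤ) := by exact_mod_cast h4.2
        rw [pow_two]
        exact mul_le_mul h6 h7 (by positivity) (by positivity)
      have h8 : lvM i ≤ lvM a + 1 ∨ lvM i ≤ lvM b + 1 := by
        by_contra hc
        push Not at hc
        omega
      rcases h8 with h | h
      · exact ⟨a, Or.inl rfl, ha, h⟩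
      · exact ⟨b, Or.inr rfl, hb, h⟩

theorem t_KERM : Pool.Agent.Y6.F.S_KERM := by
  intro hLV hC hS h hF
  have hLV' := hLV
  have hS' := hS
  obtain ⟨-, -, -, L4, L5, L6, L7, -, -, -, -⟩ := hLV
  obtain ⟨-, ⟨S3, -, -⟩⟩ := hS
  refine ⟨fun i => (L5 i).1, fun i => (L5 i).2.1, fun i => (L5 i).2.2, ?_, L6, real' h hF,
    anti' h hF, bdd' h hF, ⟨2, ?_⟩, ?_, ?_⟩
  · intro i
    by_cases hi : σM i = 0
    · exact Or.inl hi
    · exact Or.inr (L4 i hi).2
  · intro i a
    constructor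
    · refine two (i.1.1 - a.1.1) _ fun b hb => ?_
      have h1 := cK_ne h i a b hb
      rw [← h1, add_sub_cancel_left]
    · refine two (i.1.1 - a.1.1) _ fun b hb => ?_
      have h1 := cK_ne h i b a hb
      rw [← h1, add_sub_cancel_right]
  · intro i
    refine (S3 i.1.1 i.1.2).1.subset ?_
    rintro p ⟨h1, h2, h3⟩
    exact ⟨h1, h2, cK_ne h i _ _ h3⟩
  · intro i a b hi hc hab
    exact sep' hLV' hC hS' i a b hi (cK_ne h i a b hc) hab

end Pool.Agent.Y983.EF.KERM

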